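import Pool.Agent.Lib_helper15.Bishop.Defs

/-!
# Modules P and PM: the infinite product and its measurable dependence on parameters
-/

set_option autoImplicit false

universe u

namespace Pool.Agent.Bishop

open MeasureTheory Set Filter
open scoped ENNReal NNReal Topology

namespace ModPaux

/-- the norm of an infinite product is bounded by the product of the bounds -/
theorem norm_tprod_le_exp {f : ℕ → ℂ} {g : ℕ → ℝ} (hf : Multipliable f) (hg : Summable g)
    (h : ∀ j, ‖f j‖ ≤ Real.exp (g j)) : ‖∏' j, f j‖ ≤ Real.exp (∑' j, g j) := by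
  have h1 : Tendsto (fun s : Finset ℕ => ‖∏ j ∈ s, f j‖) atTop (𝓝 ‖∏' j, f j‖) :=
    (continuous_norm.tendsto _).comp hf.hasProd
  have h2 : Tendsto (fun s : Finset ℕ => Real.exp (∑ j ∈ s, g j)) atTop
      (𝓝 (Real.exp (∑' j, g j))) :=
    (Real.continuous_exp.tendsto _).comp hg.hasSum
  refine le_of_tendsto_of_tendsto' h1 h2 ?_
  intro s
  rw [norm_prod, Real.exp_sum]
  exact Finset.prod_le_prod (fun _ _ => norm_nonneg _) (fun j _ => h j)

theorem exp_sub_one_le_mul {x X : ℝ} (h0 : 0 ≤ x) (hX : x ≤ X) :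
    Real.exp x - 1 ≤ x * Real.exp X := by
  have h1 : Real.exp x - 1 ≤ x * Real.exp x := by
    have := Real.add_one_le_exp (-x)
    have h2 : Real.exp (-x) * Real.exp x = 1 := by rw [← Real.exp_add]; simp
    nlinarith [Real.exp_pos x]
  have h2 : Real.exp x ≤ Real.exp X := Real.exp_le_exp.mpr hX
  nlinarith

end ModPaux

open ModPaux in
theorem modP (hF : ModF) : ModP := by
  obtain ⟨hF1, hF2, hF3, hF4, hF5⟩ := hF
  intro σ M m hσ hM hs
  -- nonnegativity and bounds
  have hm0 : ∀ j, 0 ≤ (m j : ℝ) / 2 ^ j := fun j => by positivity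
  have hMm : ∀ j, (M j : ℝ) ≤ m j := fun j => by exact_mod_cast hM j
  have hσb : ∀ j, 2 * |σ j| ≤ (m j : ℝ) / 2 ^ j := by
    intro j
    rw [le_div_iff₀ (by positivity)]
    have := (hσ j).trans (hMm j)
    calc 2 * |σ j| * 2 ^ j = 2 ^ (j + 1) * |σ j| := by ring
      _ ≤ m j := this
  have hσs : Summable σ := by
    refine Summable.of_norm_bounded hs ?_
    intro j
    rw [Real.norm_eq_abs]
    have := hσb j
    have := abs_nonneg (σ j)
    linarith
  -- closeness to one
  have hclose : ∀ R : ℝ, 0 ≤ R → ∃ u : ℕ → ℝ, Summable u ∧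
      ∀ j (z : ℂ), ‖z‖ ≤ R → ‖fac (σ j) (M j) (m j) j z - 1‖ ≤ u j := by
    intro R hR
    set K : ℝ := R + 5 * R * Real.exp (5 * R) with hK
    have hK0 : 0 ≤ K := by positivity
    set S : ℝ := ∑' j, (m j : ℝ) / 2 ^ j with hS
    refine ⟨fun j => ((m j : ℝ) / 2 ^ j) * (K * Real.exp (K * S)), hs.mul_right _, ?_⟩
    intro j z hz
    refine (hF5 (σ j) (M j) (m j) j z R (hσ j) (hM j) hz).trans ?_
    have h1 : (m j : ℝ) / 2 ^ j ≤ S := hs.le_tsum j (fun i _ => hm0 i)
    have h2 : K * ((m j : ℝ) / 2 ^ j) ≤ K * S := by gcongr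
    calc Real.exp (K * ((m j : ℝ) / 2 ^ j)) - 1
        ≤ K * ((m j : ℝ) / 2 ^ j) * Real.exp (K * S) :=
          exp_sub_one_le_mul (by have := hm0 j; positivity) h2
      _ = _ := by ring
  have hmult : ∀ z : ℂ, Multipliable (fun j => fac (σ j) (M j) (m j) j z) := by
    intro z
    obtain ⟨u, hu, hub⟩ := hclose ‖z‖ (norm_nonneg z)
    have h1 : Multipliable (fun j => 1 + (fac (σ j) (M j) (m j) j z - 1)) := by
      apply multipliable_one_add_of_summable
      exact Summable.of_nonneg_of_le (fun _ => norm_nonneg _) (fun j => hub j z le_rfl) hu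
    simpa using h1
  -- differentiability
  have hdiff : Differentiable ℂ (Ep σ M m) := by
    intro z₀
    obtain ⟨u, hu, hub⟩ := hclose (‖z₀‖ + 1) (by positivity)
    have hopen : IsOpen (Metric.ball (0 : ℂ) (‖z₀‖ + 1)) := Metric.isOpen_ball
    have hmem : z₀ ∈ Metric.ball (0 : ℂ) (‖z₀‖ + 1) := by
      rw [mem_ball_zero_iff]; linarith
    have h1 := Summable.hasProdLocallyUniformlyOn_nat_one_add (R := ℂ)
      (f := fun j z => fac (σ j) (M j) (m j) j z - 1) hopen hu
      (Eventually.of_forall (fun j z hz => hub j z (mem_ball_zero_iff.mp hz).le))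
      (fun j => ((hF1 (σ j) (M j) (m j) j).continuous.sub continuous_const).continuousOn)
    have h2 : DifferentiableOn ℂ (fun z => ∏' j, (1 + (fac (σ j) (M j) (m j) j z - 1)))
        (Metric.ball (0 : ℂ) (‖z₀‖ + 1)) := by
      refine TendstoLocallyUniformlyOn.differentiableOn (φ := atTop) h1 ?_ hopen
      refine Eventually.of_forall ?_
      intro s
      apply DifferentiableOn.fun_finsetProd
      intro j _
      exact (((hF1 (σ j) (M j) (m j) j).sub_const 1).const_add 1).differentiableOn
    have h3 : (fun z => ∏' j, (1 + (fac (σ j) (M j) (m j) j z - 1))) = Ep σ M m := by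
      funext z
      unfold Ep
      apply tprod_congr
      intro j
      ring
    rw [h3] at h2
    exact h2.differentiableAt (hopen.mem_nhds hmem)
  have htail : ∀ (i : ℕ) (x : ℝ), HasSum (fun j => if j < i then 0 else x * σ j)
      (x * ∑' j, σ (i + j)) := by
    intro i x
    have h1 : HasSum (fun j => σ (i + j)) (∑' j, σ (i + j)) :=
      (((summable_nat_add_iff i).mpr hσs).congr (fun j => by rw [add_comm])).hasSum
    have h2 := h1.mul_left x
    rw [← hasSum_nat_add_iff' i]
    have h3 : ∑ j ∈ Finset.range i, (if j < i then 0 else x * σ j) = 0 := by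
      apply Finset.sum_eq_zero
      intro j hj
      rw [if_pos (Finset.mem_range.mp hj)]
    rw [h3, sub_zero]
    refine h2.congr_fun ?_
    intro j
    rw [if_neg (by omega), add_comm]
  refine ⟨hdiff, ?_, hσs, ?_, ?_⟩
  · unfold Ep
    simp only [hF2, tprod_one]
  · intro i z hmi hz
    have hg := (htail i z.re).add ((hs.hasSum.mul_left 6).mul_right |z.im|)
    have := norm_tprod_le_exp (hmult z) hg.summable ?_
    · rw [hg.tsum_eq] at this
      exact this
    · intro j
      have hσj := hσb j
      by_cases hj : j < i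
      · have e1 : m j = 0 := hmi j hj
        have e2 : M j = 0 := by have := hM j; omega
        have e3 : fac (σ j) (M j) (m j) j z = 1 := by simp [fac, e1, e2]
        rw [e3, norm_one, if_pos hj]
        apply Real.one_le_exp
        have := hm0 j
        positivity
      · rw [if_neg hj]
        have hz2 : |z.re| ≤ 2 ^ j :=
          hz.trans (pow_le_pow_right₀ (by norm_num) (not_lt.mp hj))
        refine (hF3 (σ j) (M j) (m j) j z (hσ j) (hM j) hz2).trans ?_
        apply Real.exp_le_exp.mpr
        have h5 : 2 * |σ j| + 5 * m j / 2 ^ j ≤ 6 * ((m j : ℝ) / 2 ^ j) := by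
          have : 5 * (m j : ℝ) / 2 ^ j = 5 * ((m j : ℝ) / 2 ^ j) := by ring
          rw [this]; linarith
        have := mul_le_mul_of_nonneg_right h5 (abs_nonneg z.im)
        linarith
  · intro i z hz1 hz2
    have hg := ((htail (i + 1) z.re).sub
      (hasSum_ite_eq (β := ℕ) i ((m i : ℝ) - M i))).add ((hs.hasSum.mul_left 6).mul_right |z.im|)
    have := norm_tprod_le_exp (hmult z) hg.summable ?_
    · rw [hg.tsum_eq] at this
      exact this
    · intro j
      have hσj := hσb j
      have h5 : 2 * |σ j| + 5 * m j / 2 ^ j ≤ 6 * ((m j : ℝ) / 2 ^ j) := by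
        have : 5 * (m j : ℝ) / 2 ^ j = 5 * ((m j : ℝ) / 2 ^ j) := by ring
        rw [this]; linarith
      have h6 := mul_le_mul_of_nonneg_right h5 (abs_nonneg z.im)
      by_cases hj : j < i + 1
      · have hz3 : 2 ^ j ≤ |z.re| :=
          (pow_le_pow_right₀ (by norm_num) (by omega)).trans hz1
        refine (hF4 (σ j) (M j) (m j) j z (hσ j) (hM j) hz3).trans ?_
        apply Real.exp_le_exp.mpr
        rw [if_pos hj]
        by_cases hji : j = i
        · subst hji
          rw [if_pos rfl]; linarith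
        · rw [if_neg hji]
          have := hMm j
          linarith
      · rw [if_neg hj, if_neg (by omega)]
        have hz3 : |z.re| ≤ 2 ^ j :=
          hz2.trans (pow_le_pow_right₀ (by norm_num) (not_lt.mp hj))
        refine (hF3 (σ j) (M j) (m j) j z (hσ j) (hM j) hz3).trans ?_
        apply Real.exp_le_exp.mpr
        linarith

theorem modPM : ModPM.{u} := by
  intro S _ σ M m hσ hM hm _ _ _ z
  unfold Ep
  apply Measurable.tprod
  intro j
  unfold fac
  have h1 : Measurable fun s => ((σ s j : ℝ) : ℂ) := Complex.measurable_ofReal.comp (hσ j)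
  have h2 : Measurable fun s => ((M s j : ℕ) : ℂ) := (measurable_of_countable _).comp (hM j)
  have h3 : Measurable fun s => (1 + (σ s j : ℂ) * z / (M s j : ℂ)) ^ (M s j) :=
    (((h1.mul_const z).div h2).const_add 1).pow (hM j)
  have h4 : Measurable fun s => (csinc (5 * z / 2 ^ j)) ^ (m s j) :=
    measurable_const.pow (hm j)
  exact h3.mul h4

end Pool.Agent.Bishop
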