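import Pool.Agent.Lib_helper15.Bishop.Defs

/-!
# Module AP: orbits of absolutely convergent almost periodic functions are tame
-/

set_option autoImplicit false

universe u

namespace Pool.Agent.Bishop

open MeasureTheory Set Filter
open scoped ENNReal NNReal Topology

namespace ModAPaux

/-- the cocycle of a character -/
noncomputable def GG (z : ℂ) (n : ℤ) : ℂ :=
  if 0 ≤ n then ∑ j ∈ Finset.range n.toNat, z ^ (j : ℤ)
  else - ∑ j ∈ Finset.range (-n).toNat, z ^ (-(j : ℤ) - 1)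

theorem norm_zpow_sub_one_nat (z : ℂ) (hz : ‖z‖ = 1) (j : ℕ) :
    ‖z ^ j - 1‖ ≤ j * ‖z - 1‖ := by
  induction j with
  | zero => simp
  | succ j ih =>
    have : z ^ (j + 1) - 1 = z ^ j * (z - 1) + (z ^ j - 1) := by ring
    rw [this]
    calc ‖z ^ j * (z - 1) + (z ^ j - 1)‖ ≤ ‖z ^ j * (z - 1)‖ + ‖z ^ j - 1‖ := norm_add_le _ _
      _ ≤ 1 * ‖z - 1‖ + j * ‖z - 1‖ := by
          rw [norm_mul, norm_pow, hz, one_pow]; gcongr
      _ = ((j + 1 : ℕ) : ℝ) * ‖z - 1‖ := by push_cast; ring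

theorem norm_zpow_neg_sub_one_nat (z : ℂ) (hz : ‖z‖ = 1) (j : ℕ) :
    ‖z ^ (-(j : ℤ)) - 1‖ ≤ j * ‖z - 1‖ := by
  have hz0 : z ≠ 0 := by
    intro h; rw [h, norm_zero] at hz; exact one_ne_zero hz.symm
  have : z ^ (-(j : ℤ)) - 1 = - (z ^ (-(j : ℤ)) * (z ^ j - 1)) := by
    rw [mul_sub, zpow_neg, zpow_natCast, inv_mul_cancel₀ (pow_ne_zero _ hz0)]; ring
  rw [this, norm_neg, norm_mul, norm_zpow, hz, one_zpow, one_mul]
  exact norm_zpow_sub_one_nat z hz j

theorem norm_GG_sub_le (z : ℂ) (hz : ‖z‖ = 1) (n : ℤ) :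
    ‖GG z n - n‖ ≤ (n : ℝ) ^ 2 * ‖z - 1‖ := by
  unfold GG
  split_ifs with h
  · obtain ⟨m, rfl⟩ := Int.eq_ofNat_of_zero_le h
    rw [Int.toNat_natCast]
    have : ∑ j ∈ Finset.range m, z ^ (j : ℤ) - ((m : ℤ) : ℂ) =
        ∑ j ∈ Finset.range m, (z ^ j - 1) := by
      rw [Finset.sum_sub_distrib]; simp
    rw [this]
    calc ‖∑ j ∈ Finset.range m, (z ^ j - 1)‖ ≤ ∑ j ∈ Finset.range m, ‖z ^ j - 1‖ :=
          norm_sum_le _ _
      _ ≤ ∑ j ∈ Finset.range m, (m : ℝ) * ‖z - 1‖ := by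
          apply Finset.sum_le_sum
          intro j hj
          refine (norm_zpow_sub_one_nat z hz j).trans ?_
          have : (j : ℝ) ≤ m := by exact_mod_cast (Finset.mem_range.mp hj).le
          gcongr
      _ = (((m : ℕ) : ℤ) : ℝ) ^ 2 * ‖z - 1‖ := by
          rw [Finset.sum_const, Finset.card_range, nsmul_eq_mul]; push_cast; ring
  · obtain ⟨m, hm⟩ := Int.eq_ofNat_of_zero_le (show 0 ≤ -n by omega)
    have hn : n = -(m : ℤ) := by omega
    subst hn
    rw [neg_neg, Int.toNat_natCast]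
    have : - ∑ j ∈ Finset.range m, z ^ (-(j : ℤ) - 1) - ((-(m : ℤ) : ℤ) : ℂ) =
        - ∑ j ∈ Finset.range m, (z ^ (-((j + 1 : ℕ) : ℤ)) - 1) := by
      rw [Finset.sum_sub_distrib]
      have h2 : ∀ j ∈ Finset.range m, z ^ (-(j : ℤ) - 1) = z ^ (-((j + 1 : ℕ) : ℤ)) := by
        intro j _; congr 1; push_cast; ring
      rw [Finset.sum_congr rfl h2]
      simp only [Int.cast_neg, Int.cast_natCast, Finset.sum_const, Finset.card_range,
        nsmul_eq_mul, mul_one]
      ring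
    rw [this, norm_neg]
    calc ‖∑ j ∈ Finset.range m, (z ^ (-((j + 1 : ℕ) : ℤ)) - 1)‖
        ≤ ∑ j ∈ Finset.range m, ‖z ^ (-((j + 1 : ℕ) : ℤ)) - 1‖ := norm_sum_le _ _
      _ ≤ ∑ j ∈ Finset.range m, (m : ℝ) * ‖z - 1‖ := by
          apply Finset.sum_le_sum
          intro j hj
          refine (norm_zpow_neg_sub_one_nat z hz (j + 1)).trans ?_
          have : ((j + 1 : ℕ) : ℝ) ≤ m := by exact_mod_cast (Finset.mem_range.mp hj)
          gcongr
      _ = ((-(m : ℤ) : ℤ) : ℝ) ^ 2 * ‖z - 1‖ := by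
          rw [Finset.sum_const, Finset.card_range, nsmul_eq_mul]; push_cast; ring

theorem GG_mul (z : ℂ) (hz0 : z ≠ 0) (n : ℤ) : GG z n * (z - 1) = z ^ n - 1 := by
  unfold GG
  split_ifs with h
  · obtain ⟨m, rfl⟩ := Int.eq_ofNat_of_zero_le h
    rw [Int.toNat_natCast]
    have := geom_sum_mul z m
    simpa using this
  · obtain ⟨m, hm⟩ := Int.eq_ofNat_of_zero_le (show 0 ≤ -n by omega)
    have hn : n = -(m : ℤ) := by omega
    subst hn
    rw [neg_neg, Int.toNat_natCast]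
    clear hm h
    induction m with
    | zero => simp
    | succ m ih =>
      rw [Finset.sum_range_succ]
      have e1 : z ^ (-(m : ℤ) - 1) * z = z ^ (-(m : ℤ)) := by
        rw [zpow_sub₀ hz0, zpow_one]; field_simp
      have e2 : z ^ (-((m + 1 : ℕ) : ℤ)) = z ^ (-(m : ℤ) - 1) := by
        congr 1; push_cast; ring
      rw [e2]
      linear_combination ih - e1

theorem norm_GG_le (z : ℂ) (hz : ‖z‖ = 1) (h1 : 0 < ‖z - 1‖) (n : ℤ) :
    ‖GG z n‖ ≤ 2 / ‖z - 1‖ := by
  have hz0 : z ≠ 0 := by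
    intro h; rw [h, norm_zero] at hz; exact one_ne_zero hz.symm
  rw [le_div_iff₀ h1, ← norm_mul, GG_mul z hz0]
  calc ‖z ^ n - 1‖ ≤ ‖z ^ n‖ + ‖(1 : ℂ)‖ := norm_sub_le _ _
    _ = 2 := by rw [norm_zpow, hz, one_zpow, norm_one]; norm_num

/-- the local error -/
noncomputable def rho (i : ℕ) (d : ℝ) : ℝ := if 2 ^ i * d ≤ 1 then 4 ^ i * d else 2 / d

theorem rho_nonneg (i : ℕ) {d : ℝ} (hd : 0 ≤ d) : 0 ≤ rho i d := by
  unfold rho; split_ifs <;> positivity

theorem rho_le (i : ℕ) {d : ℝ} (hd : 0 ≤ d) : rho i d ≤ 2 * 2 ^ i := by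
  unfold rho
  have h4 : (4 : ℝ) ^ i = 2 ^ i * 2 ^ i := by rw [← mul_pow]; norm_num
  have hp : (0 : ℝ) < 2 ^ i := by positivity
  split_ifs with h
  · rw [h4]; nlinarith
  · have hd0 : 0 < d := by
      rcases hd.lt_or_eq with h' | h'
      · exact h'
      · exfalso; apply h; rw [← h']; simp
    rw [div_le_iff₀ hd0]
    nlinarith [not_le.mp h]

/-- telescoping bound -/
theorem rho_tele (i : ℕ) {d : ℝ} (hd : 0 ≤ d) :
    rho i d / 2 ^ i ≤ 12 * (2 ^ (i + 1) * d / (1 + 2 ^ (i + 1) * d) -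
      2 ^ i * d / (1 + 2 ^ i * d)) := by
  have hp : (0 : ℝ) < 2 ^ i := by positivity
  set x : ℝ := 2 ^ i * d with hx
  have hx0 : 0 ≤ x := by positivity
  have e1 : (2 : ℝ) ^ (i + 1) * d = 2 * x := by rw [hx, pow_succ]; ring
  rw [e1]
  have e2 : 2 * x / (1 + 2 * x) - x / (1 + x) = x / ((1 + 2 * x) * (1 + x)) := by
    field_simp; ring
  rw [e2]
  unfold rho
  rw [← hx]
  split_ifs with h
  · have h4 : (4 : ℝ) ^ i * d / 2 ^ i = x := by
      have : (4 : ℝ) ^ i = 2 ^ i * 2 ^ i := by rw [← mul_pow]; norm_num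
      rw [this, hx]; field_simp
    rw [h4, ← mul_div_assoc, le_div_iff₀ (by positivity)]
    nlinarith [mul_nonneg hx0 hx0, mul_nonneg (mul_nonneg hx0 hx0) hx0,
      mul_nonneg hx0 (sub_nonneg.mpr h)]
  · have hx1 : 1 < x := not_le.mp h
    have hd0 : 0 < d := by
      rcases hd.lt_or_eq with h' | h'
      · exact h'
      · exfalso; apply h; rw [hx, ← h']; simp
    have h5 : 2 / d / 2 ^ i = 2 / x := by rw [hx]; field_simp
    rw [h5, ← mul_div_assoc, div_le_div_iff₀ (by linarith) (by positivity)]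
    nlinarith

theorem rho_sum (N : ℕ) {d : ℝ} (hd : 0 ≤ d) :
    ∑ i ∈ Finset.range N, rho i d / 2 ^ i ≤ 12 := by
  calc ∑ i ∈ Finset.range N, rho i d / 2 ^ i
      ≤ ∑ i ∈ Finset.range N, 12 * (2 ^ (i + 1) * d / (1 + 2 ^ (i + 1) * d) -
        2 ^ i * d / (1 + 2 ^ i * d)) := Finset.sum_le_sum (fun i _ => rho_tele i hd)
    _ = 12 * (2 ^ N * d / (1 + 2 ^ N * d) - 2 ^ 0 * d / (1 + 2 ^ 0 * d)) := by
        rw [← Finset.mul_sum, Finset.sum_range_sub (fun i => 2 ^ i * d / (1 + 2 ^ i * d))]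
    _ ≤ 12 := by
        have h1 : 2 ^ N * d / (1 + 2 ^ N * d) ≤ 1 := by
          rw [div_le_one (by positivity)]; linarith
        have h2 : 0 ≤ 2 ^ 0 * d / (1 + 2 ^ 0 * d) := by positivity
        linarith

end ModAPaux

open ModAPaux in
/-- If `log |w|` along the orbit is (the real part of) an absolutely convergent sum of characters,
then the orbit is tame. -/
theorem modAP {X : Type u} (φ : X → ℝ) (τ : Equiv.Perm X) (t : X) (c l : ℕ → ℂ)
    (hl : ∀ k, ‖l k‖ = 1) (hc : Summable fun k => ‖c k‖)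
    (h : ∀ n : ℤ, φ ((τ ^ n) t) = (∑' k, c k * (l k) ^ n).re) : TameB φ τ t := by
  -- summability of the characters
  have hs : ∀ n : ℤ, Summable fun k => c k * (l k) ^ n := by
    intro n
    refine Summable.of_norm_bounded hc (fun k => ?_)
    rw [norm_mul, norm_zpow, hl, one_zpow, mul_one]
  have hsG : ∀ n : ℤ, Summable fun k => c k * GG (l k) n := by
    intro n
    unfold GG
    split_ifs
    · have hA : Summable (fun k => ∑ j ∈ Finset.range n.toNat, c k * (l k) ^ (j : ℤ)) :=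
        summable_sum (fun j _ => hs j)
      refine hA.congr (fun k => ?_)
      rw [Finset.mul_sum]
    · have hA : Summable (fun k => ∑ j ∈ Finset.range (-n).toNat,
          c k * (l k) ^ (-(j : ℤ) - 1)) := summable_sum (fun j _ => hs (-(j : ℤ) - 1))
      refine hA.neg.congr (fun k => ?_)
      rw [mul_neg, Finset.mul_sum]
  -- the Birkhoff sums
  have hb : ∀ n : ℤ, bsum φ τ n t = (∑' k, c k * GG (l k) n).re := by
    intro n
    unfold bsum GG
    split_ifs
    · have e := Summable.tsum_finsetSum (f := fun (j : ℕ) (k : ℕ) => c k * (l k) ^ (j : ℤ))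
        (s := Finset.range n.toNat) (fun j _ => hs j)
      simp only [h, Finset.mul_sum]
      rw [e, Complex.re_sum]
    · have e := Summable.tsum_finsetSum
        (f := fun (j : ℕ) (k : ℕ) => c k * (l k) ^ (-(j : ℤ) - 1))
        (s := Finset.range (-n).toNat) (fun j _ => hs (-(j : ℤ) - 1))
      simp only [h, mul_neg, Finset.mul_sum]
      rw [tsum_neg, e, Complex.neg_re, Complex.re_sum]
  classical
  have hd0 : ∀ k, 0 ≤ ‖l k - 1‖ := fun k => norm_nonneg _
  -- summability of the error series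
  have hr : ∀ i : ℕ, Summable fun k => ‖c k‖ * rho i ‖l k - 1‖ := by
    intro i
    refine Summable.of_nonneg_of_le (fun k => mul_nonneg (norm_nonneg _) (rho_nonneg i (hd0 k)))
      (fun k => ?_) (hc.mul_right (2 * 2 ^ i))
    exact mul_le_mul_of_nonneg_left (rho_le i (hd0 k)) (norm_nonneg _)
  have hsmall : ∀ i : ℕ, Summable fun k => (if 2 ^ i * ‖l k - 1‖ ≤ 1 then c k else 0) := by
    intro i
    refine Summable.of_norm_bounded hc (fun k => ?_)
    split_ifs
    · exact le_rfl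
    · rw [norm_zero]; exact norm_nonneg _
  refine ⟨fun i => (∑' k, (if 2 ^ i * ‖l k - 1‖ ≤ 1 then c k else 0)).re,
    fun i => ∑' k, ‖c k‖ * rho i ‖l k - 1‖, ?_, ?_⟩
  · refine summable_of_sum_range_le (c := 12 * ∑' k, ‖c k‖) ?_ ?_
    · intro i
      have : 0 ≤ ∑' k, ‖c k‖ * rho i ‖l k - 1‖ :=
        tsum_nonneg (fun k => mul_nonneg (norm_nonneg _) (rho_nonneg i (hd0 k)))
      positivity
    · intro N
      have e1 : ∀ i ∈ Finset.range N, (∑' k, ‖c k‖ * rho i ‖l k - 1‖) / 2 ^ i =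
          ∑' k, ‖c k‖ * rho i ‖l k - 1‖ / 2 ^ i := by
        intro i _
        rw [tsum_div_const]
      rw [Finset.sum_congr rfl e1, ← Summable.tsum_finsetSum (fun i _ => (hr i).div_const _),
        ← tsum_mul_left]
      refine Summable.tsum_le_tsum (fun k => ?_) (summable_sum (fun i _ => (hr i).div_const _))
        (hc.mul_left 12)
      have h1 := rho_sum N (hd0 k)
      have h2 : ∑ i ∈ Finset.range N, ‖c k‖ * rho i ‖l k - 1‖ / 2 ^ i =
          ‖c k‖ * ∑ i ∈ Finset.range N, rho i ‖l k - 1‖ / 2 ^ i := by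
        rw [Finset.mul_sum]
        apply Finset.sum_congr rfl
        intro i _
        ring
      rw [h2, mul_comm]
      exact mul_le_mul_of_nonneg_right h1 (norm_nonneg _)
  · intro i n hn
    rw [hb n]
    have e1 : (n : ℝ) * (∑' k, (if 2 ^ i * ‖l k - 1‖ ≤ 1 then c k else 0)).re =
        (∑' k, (n : ℂ) * (if 2 ^ i * ‖l k - 1‖ ≤ 1 then c k else 0)).re := by
      rw [tsum_mul_left]
      simp
    rw [e1, ← Complex.sub_re, ← Summable.tsum_sub (hsG n) ((hsmall i).mul_left _)]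
    refine (Complex.abs_re_le_norm _).trans ?_
    refine tsum_of_norm_bounded (hr i).hasSum (fun k => ?_)
    have hp : (0 : ℝ) < 2 ^ i := by positivity
    by_cases hk : 2 ^ i * ‖l k - 1‖ ≤ 1
    · rw [if_pos hk, mul_comm (n : ℂ), ← mul_sub, norm_mul]
      apply mul_le_mul_of_nonneg_left _ (norm_nonneg _)
      refine (norm_GG_sub_le _ (hl k) n).trans ?_
      unfold rho
      rw [if_pos hk]
      have h4 : (n : ℝ) ^ 2 ≤ 4 ^ i := by
        have : (4 : ℝ) ^ i = (2 ^ i) ^ 2 := by rw [← pow_mul, mul_comm, pow_mul]; norm_num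
        rw [this, ← sq_abs]
        gcongr
      gcongr
    · rw [if_neg hk, mul_zero, sub_zero, norm_mul]
      apply mul_le_mul_of_nonneg_left _ (norm_nonneg _)
      unfold rho
      rw [if_neg hk]
      apply norm_GG_le _ (hl k)
      rcases (hd0 k).lt_or_eq with h' | h'
      · exact h'
      · exfalso; apply hk; rw [← h']; simp

end Pool.Agent.Bishop
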