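import Pool.Agent.Lib_helper47.Bishop.Defs

/-!
# Module M7: functional calculus for moderate growth
-/

set_option autoImplicit false

open MeasureTheory Metric Set

namespace Pool.Agent.Bishop

namespace M7mod

/-! ### the summable majorant -/

/-- the majorant of the terms of the functional calculus -/
noncomputable def maj (C B : ℝ) (n : ℤ) : ℝ :=
  B * Real.exp (-(|(n : ℝ)| ^ (1 / 3 : ℝ))) * Real.exp (C * (1 + Real.log (|(n : ℝ)| + 2) ^ 2))

theorem maj_neg (C B : ℝ) (n : ℤ) : maj C B (-n) = maj C B n := by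
  unfold maj
  push_cast
  rw [abs_neg]

theorem maj_nonneg (C : ℝ) {B : ℝ} (hB : 0 ≤ B) (n : ℤ) : 0 ≤ maj C B n := by
  unfold maj; positivity

theorem summable_maj_nat (C B : ℝ) (hC : 0 ≤ C) : Summable (fun n : ℕ => maj C B (n : ℤ)) := by
  -- growth comparison
  have h1 : (fun x : ℝ => Real.log x ^ (2 : ℝ)) =o[Filter.atTop] fun x => x ^ (1 / 3 : ℝ) :=
    isLittleO_log_rpow_rpow_atTop 2 (by norm_num)
  have h2 : (fun x : ℝ => Real.log x) =o[Filter.atTop] fun x => x ^ (1 / 3 : ℝ) :=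
    isLittleO_log_rpow_atTop (by norm_num)
  have hD : (0 : ℝ) < 1 / (8 * (C + 1)) := by positivity
  have e1 := h1.def hD
  have e2 := h2.def (show (0 : ℝ) < 1 / 8 by norm_num)
  have e3 : ∀ᶠ x : ℝ in Filter.atTop, 4 ≤ x := Filter.eventually_ge_atTop 4
  have e4 : ∀ᶠ x : ℝ in Filter.atTop, 8 * C ≤ x ^ (1 / 3 : ℝ) :=
    (tendsto_rpow_atTop (show (0 : ℝ) < 1 / 3 by norm_num)).eventually_ge_atTop _
  have hev : ∀ᶠ x : ℝ in Filter.atTop,
      Real.exp (-(x ^ (1 / 3 : ℝ))) * Real.exp (C * (1 + Real.log (x + 2) ^ 2)) ≤ x ^ (-2 : ℝ) := by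
    have hs : Filter.Tendsto (fun x : ℝ => x + 2) Filter.atTop Filter.atTop :=
      Filter.tendsto_atTop_add_const_right _ _ Filter.tendsto_id
    filter_upwards [hs.eventually e1, e2, e3, e4] with x hx1 hx2 hx3 hx4
    have hx0 : 0 < x := by linarith
    have hl0 : 0 ≤ Real.log (x + 2) := Real.log_nonneg (by linarith)
    have hl1 : 0 ≤ Real.log x := Real.log_nonneg (by linarith)
    have hp0 : 0 ≤ x ^ (1 / 3 : ℝ) := Real.rpow_nonneg hx0.le _
    have hp1 : (x + 2) ^ (1 / 3 : ℝ) ≤ 2 * x ^ (1 / 3 : ℝ) := by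
      have : (x + 2) ^ (1 / 3 : ℝ) ≤ (2 * x) ^ (1 / 3 : ℝ) :=
        Real.rpow_le_rpow (by linarith) (by linarith) (by norm_num)
      refine this.trans ?_
      rw [Real.mul_rpow (by norm_num) hx0.le]
      gcongr
      calc (2 : ℝ) ^ (1 / 3 : ℝ) ≤ 2 ^ (1 : ℝ) :=
            Real.rpow_le_rpow_of_exponent_le (by norm_num) (by norm_num)
        _ = 2 := by norm_num
    rw [Real.norm_of_nonneg (Real.rpow_nonneg hl0 _),
      Real.norm_of_nonneg (Real.rpow_nonneg (by linarith) _)] at hx1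
    rw [Real.norm_of_nonneg hl1, Real.norm_of_nonneg hp0] at hx2
    have hsq : Real.log (x + 2) ^ (2 : ℝ) = Real.log (x + 2) ^ 2 := by
      exact_mod_cast Real.rpow_natCast _ 2
    rw [hsq] at hx1
    have hb : C * Real.log (x + 2) ^ 2 ≤ 1 / 4 * x ^ (1 / 3 : ℝ) := by
      calc C * Real.log (x + 2) ^ 2 ≤ C * (1 / (8 * (C + 1)) * (x + 2) ^ (1 / 3 : ℝ)) := by
            gcongr
        _ ≤ C * (1 / (8 * (C + 1)) * (2 * x ^ (1 / 3 : ℝ))) := by gcongr
        _ = (C / (C + 1)) * (1 / 4 * x ^ (1 / 3 : ℝ)) := by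
            field_simp; ring
        _ ≤ 1 * (1 / 4 * x ^ (1 / 3 : ℝ)) := by
            gcongr
            rw [div_le_one (by linarith)]; linarith
        _ = _ := by ring
    rw [← Real.exp_add, show x ^ (-2 : ℝ) = Real.exp (Real.log x * (-2)) from
      Real.rpow_def_of_pos hx0 _]
    apply Real.exp_le_exp.mpr
    nlinarith
  have hev2 : ∀ᶠ n : ℕ in Filter.atTop,
      Real.exp (-((n : ℝ) ^ (1 / 3 : ℝ))) * Real.exp (C * (1 + Real.log ((n : ℝ) + 2) ^ 2)) ≤
        (n : ℝ) ^ (-2 : ℝ) := tendsto_natCast_atTop_atTop.eventually hev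
  refine summable_of_isBigO_nat (g := fun n : ℕ => (n : ℝ) ^ (-2 : ℝ))
    (Real.summable_nat_rpow.mpr (by norm_num)) ?_
  refine Asymptotics.IsBigO.of_bound |B| ?_
  filter_upwards [hev2] with n hn
  have hn0 : (0 : ℝ) ≤ n := Nat.cast_nonneg n
  have hp : 0 ≤ (n : ℝ) ^ (-2 : ℝ) := Real.rpow_nonneg hn0 _
  unfold maj
  rw [Int.cast_natCast, abs_of_nonneg hn0, mul_assoc, norm_mul, Real.norm_eq_abs,
    Real.norm_of_nonneg (by positivity : (0 : ℝ) ≤ _ * _), Real.norm_of_nonneg hp]
  gcongr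

theorem summable_maj (C B : ℝ) (hC : 0 ≤ C) : Summable (maj C B) := by
  rw [summable_int_iff_summable_nat_and_neg]
  refine ⟨summable_maj_nat C B hC, ?_⟩
  have : (fun n : ℕ => maj C B (-(n : ℤ))) = fun n : ℕ => maj C B (n : ℤ) := by
    funext n; exact maj_neg C B n
  rw [this]
  exact summable_maj_nat C B hC

/-! ### roots of unity -/

theorem ee_add (a b : ℝ) : ee (a + b) = ee a * ee b := by
  unfold ee
  rw [← Complex.exp_add]; congr 1; push_cast; ring

theorem norm_ee (a : ℝ) : ‖ee a‖ = 1 := by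
  unfold ee
  have : (2 * (Real.pi : ℂ) * Complex.I * (a : ℂ)) = ((2 * Real.pi * a : ℝ) : ℂ) * Complex.I := by
    push_cast; ring
  rw [this, Complex.norm_exp_ofReal_mul_I]

theorem ee_ne (a : ℝ) : ee a ≠ 0 := Complex.exp_ne_zero _

theorem continuous_ee : Continuous ee := by
  unfold ee; fun_prop

theorem ee_zero : ee 0 = 1 := by simp [ee]

theorem ee_neg_mul (n : ℤ) (a : ℝ) : ee (-(n * a)) = ee a ^ (-n) := by
  unfold ee
  rw [← Complex.exp_int_mul]; congr 1; push_cast; ring

theorem ee_pow (n : ℕ) (a : ℝ) : ee (n * a) = ee a ^ n := by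
  unfold ee
  rw [← Complex.exp_nat_mul]; congr 1; push_cast; ring

theorem ee_prim (r : ℕ) (hr : 1 ≤ r) : IsPrimitiveRoot (ee (1 / r)) r := by
  have := Complex.isPrimitiveRoot_exp r (by omega)
  have h2 : ee (1 / r) = Complex.exp (2 * Real.pi * Complex.I / r) := by
    unfold ee; congr 1; push_cast; ring
  rw [h2]; exact this

theorem sum_roots (r : ℕ) (hr : 1 ≤ r) (n : ℤ) :
    ∑ i ∈ Finset.range r, (ee (i / r)) ^ (-n) = if (r : ℤ) ∣ n then (r : ℂ) else 0 := by
  have hp := ee_prim r hr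
  have h1 : ∀ i ∈ Finset.range r, (ee (i / r)) ^ (-n) = ((ee (1 / r)) ^ (-n)) ^ i := by
    intro i _
    have : ee ((i : ℝ) / r) = ee (1 / r) ^ i := by
      rw [← ee_pow]; congr 1; ring
    rw [this, ← zpow_natCast, ← zpow_natCast, ← zpow_mul, ← zpow_mul, mul_comm]
  rw [Finset.sum_congr rfl h1]
  split_ifs with hd
  · have : ee (1 / r) ^ (-n) = 1 := by
      rw [hp.zpow_eq_one_iff_dvd]; exact (dvd_neg).mpr hd
    rw [this]; simp
  · have hne : ee (1 / r) ^ (-n) ≠ 1 := by
      intro h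
      rw [hp.zpow_eq_one_iff_dvd] at h
      exact hd ((dvd_neg).mp h)
    have hm := geom_sum_mul (ee (1 / r) ^ (-n)) r
    have h1 : (ee (1 / r) ^ (-n)) ^ r = 1 := by
      rw [← zpow_natCast, ← zpow_mul, mul_comm, zpow_mul, zpow_natCast, hp.pow_eq_one, one_zpow]
    rw [h1, sub_self] at hm
    rcases mul_eq_zero.mp hm with h | h
    · exact h
    · exact absurd (sub_eq_zero.mp h) hne

/-! ### the coefficients -/

section Coef

variable (ψ : ℝ → ℝ)

/-- coefficients of the resolvent part -/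
noncomputable def II (μ : ℂ) (n : ℤ) : ℂ :=
  ∫ θ in (-(1 / 100) : ℝ)..(1 / 100), (ψ θ : ℂ) / (ee θ - μ) * ee (-(n * θ))

/-- coefficients of the bump -/
noncomputable def cc (n : ℤ) : ℂ :=
  ∫ θ in (-(1 / 100) : ℝ)..(1 / 100), (ψ θ : ℂ) * ee (-(n * θ))

theorem norm_ee_sub_one (θ : ℝ) (h : |θ| ≤ 1 / 100) : ‖ee θ - 1‖ ≤ 7 / 100 := by
  have h1 : ee θ = Complex.exp (Complex.I * ((2 * Real.pi * θ : ℝ) : ℂ)) := by
    unfold ee; congr 1; push_cast; ring
  rw [h1]
  refine (Real.norm_exp_I_mul_ofReal_sub_one_le).trans ?_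
  rw [Real.norm_eq_abs, abs_mul, abs_of_pos (by positivity : (0 : ℝ) < 2 * Real.pi)]
  have := Real.pi_lt_d2
  nlinarith [abs_nonneg θ, Real.pi_pos]

theorem le_norm_ee_sub (θ : ℝ) (h : |θ| ≤ 1 / 100) (μ : ℂ) (hμ : μ ∉ ball (1 : ℂ) (1 / 10)) :
    3 / 100 ≤ ‖ee θ - μ‖ := by
  have h1 := norm_ee_sub_one θ h
  have h2 : 1 / 10 ≤ ‖μ - 1‖ := by
    simpa [mem_ball, dist_eq_norm] using hμ
  have h3 : ‖μ - 1‖ ≤ ‖ee θ - 1‖ + ‖ee θ - μ‖ := by
    calc ‖μ - 1‖ = ‖(ee θ - 1) - (ee θ - μ)‖ := by congr 1; ring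
      _ ≤ _ := norm_sub_le _ _
  linarith

theorem uIcc_abs {θ : ℝ} (h : θ ∈ Set.uIcc (-(1 / 100) : ℝ) (1 / 100)) : |θ| ≤ 1 / 100 := by
  rw [Set.uIcc_of_le (by norm_num)] at h
  exact abs_le.mpr h

variable (hψ : Continuous ψ)

include hψ in
theorem intervalIntegrable_cc (n : ℤ) :
    IntervalIntegrable (fun θ : ℝ => (ψ θ : ℂ) * ee (-(n * θ))) volume (-(1 / 100)) (1 / 100) := by
  apply Continuous.intervalIntegrable
  have := continuous_ee
  fun_prop

include hψ in
theorem intervalIntegrable_II (μ : ℂ) (hμ : μ ∉ ball (1 : ℂ) (1 / 10)) (n : ℤ) :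
    IntervalIntegrable (fun θ : ℝ => (ψ θ : ℂ) / (ee θ - μ) * ee (-(n * θ))) volume
      (-(1 / 100)) (1 / 100) := by
  apply ContinuousOn.intervalIntegrable
  have := continuous_ee
  apply ContinuousOn.mul
  · apply ContinuousOn.div
    · fun_prop
    · fun_prop
    · intro θ hθ
      have := le_norm_ee_sub θ (uIcc_abs hθ) μ hμ
      intro h0
      rw [h0, norm_zero] at this
      linarith
  · fun_prop

include hψ in
/-- the recurrence of the coefficients -/
theorem II_rec (μ : ℂ) (hμ : μ ∉ ball (1 : ℂ) (1 / 10)) (n : ℤ) :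
    II ψ μ (n - 1) - μ * II ψ μ n = cc ψ n := by
  unfold II cc
  rw [← intervalIntegral.integral_const_mul, ← intervalIntegral.integral_sub
    (intervalIntegrable_II ψ hψ μ hμ _) ((intervalIntegrable_II ψ hψ μ hμ _).const_mul _)]
  apply intervalIntegral.integral_congr
  intro θ hθ
  have hne : ee θ - μ ≠ 0 := by
    have := le_norm_ee_sub θ (uIcc_abs hθ) μ hμ
    intro h0
    rw [h0, norm_zero] at this
    linarith
  have h1 : ee (-(((n - 1 : ℤ) : ℝ) * θ)) = ee θ * ee (-(n * θ)) := by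
    rw [← ee_add]; congr 1; push_cast; ring
  simp only [h1]
  field_simp

include hψ in
theorem II_differentiable (n : ℤ) :
    DifferentiableOn ℂ (fun μ => II ψ μ n) (closedBall (1 : ℂ) (1 / 10))ᶜ := by
  intro μ₀ hμ₀
  have hopen : IsOpen (closedBall (1 : ℂ) (1 / 10))ᶜ := isClosed_closedBall.isOpen_compl
  have hnb : (closedBall (1 : ℂ) (1 / 10))ᶜ ∈ nhds μ₀ := hopen.mem_nhds hμ₀
  have hsub : ∀ μ ∈ (closedBall (1 : ℂ) (1 / 10))ᶜ, μ ∉ ball (1 : ℂ) (1 / 10) := by
    intro μ hμ h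
    exact hμ (ball_subset_closedBall h)
  have hc := continuous_ee
  have key := intervalIntegral.hasDerivAt_integral_of_dominated_loc_of_deriv_le
    (𝕜 := ℂ) (μ := volume) (E := ℂ) (a := (-(1 / 100) : ℝ)) (b := 1 / 100)
    (bound := fun θ : ℝ => |ψ θ| * (100 / 3) ^ 2)
    (F := fun (μ : ℂ) (θ : ℝ) => (ψ θ : ℂ) / (ee θ - μ) * ee (-(n * θ)))
    (F' := fun (μ : ℂ) (θ : ℝ) => (ψ θ : ℂ) / (ee θ - μ) ^ 2 * ee (-(n * θ)))
    (x₀ := μ₀) (s := (closedBall (1 : ℂ) (1 / 10))ᶜ) hnb ?_ ?_ ?_ ?_ ?_ ?_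
  · exact key.2.differentiableAt.differentiableWithinAt
  · filter_upwards [hnb] with μ hμ
    exact (intervalIntegrable_II ψ hψ μ (hsub μ hμ) n).def'.aestronglyMeasurable
  · exact intervalIntegrable_II ψ hψ μ₀ (hsub μ₀ hμ₀) n
  · have : ContinuousOn (fun θ : ℝ => (ψ θ : ℂ) / (ee θ - μ₀) ^ 2 * ee (-(n * θ)))
        (Set.uIcc (-(1 / 100) : ℝ) (1 / 100)) := by
      apply ContinuousOn.mul
      · apply ContinuousOn.div
        · fun_prop
        · fun_prop
        · intro θ hθ
          have := le_norm_ee_sub θ (uIcc_abs hθ) μ₀ (hsub μ₀ hμ₀)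
          intro h0
          have h0' := pow_eq_zero_iff (two_ne_zero) |>.mp h0
          rw [h0', norm_zero] at this
          linarith
      · fun_prop
    exact this.intervalIntegrable.def'.aestronglyMeasurable
  · refine Filter.Eventually.of_forall ?_
    intro θ hθ μ hμ
    have h1 := le_norm_ee_sub θ (uIcc_abs (Set.uIoc_subset_uIcc hθ)) μ (hsub μ hμ)
    rw [norm_mul, norm_div, norm_pow, norm_ee, mul_one, Complex.norm_real, Real.norm_eq_abs,
      div_eq_mul_inv]
    gcongr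
    rw [← inv_pow]
    gcongr
    rw [inv_le_comm₀ (by linarith) (by norm_num)]
    norm_num; linarith
  · apply Continuous.intervalIntegrable
    fun_prop
  · refine Filter.Eventually.of_forall ?_
    intro θ hθ μ hμ
    have h1 := le_norm_ee_sub θ (uIcc_abs (Set.uIoc_subset_uIcc hθ)) μ (hsub μ hμ)
    have hne : ee θ - μ ≠ 0 := by
      intro h0
      rw [h0, norm_zero] at h1
      linarith
    have hd : HasDerivAt (fun μ : ℂ => ee θ - μ) (-1) μ := by
      simpa using (hasDerivAt_id μ).const_sub (ee θ)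
    have h2 := (hd.inv hne).const_mul (ψ θ : ℂ)
    have h3 := h2.mul_const (ee (-(n * θ)))
    have h4 := h3.congr_deriv (show (ψ θ : ℂ) * (- -1 / (ee θ - μ) ^ 2) * ee (-(n * θ)) =
      (ψ θ : ℂ) / (ee θ - μ) ^ 2 * ee (-(n * θ)) by rw [neg_neg, div_eq_mul_one_div (ψ θ : ℂ)])
    simpa only [div_eq_mul_inv, Pi.inv_apply] using h4

end Coef

/-! ### the terms -/

section Terms

variable (β : ℝ) (v : ℝ → ℝ) (L : ℤ → ℝ → ℝ) (E : Set ℝ)

/-- `S^n 1_E` -/
noncomputable def TT (n : ℤ) (x : ℝ) : ℂ := (Real.exp (L n x) : ℂ) * E.indicator 1 (x + n * β)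

variable {β v L E}

theorem measurable_TT (hE : MeasurableSet E) (hL : ∀ n, Measurable (L n)) (n : ℤ) :
    Measurable (TT β L E n) := by
  unfold TT
  have h1 : Measurable (E.indicator (1 : ℝ → ℂ)) := measurable_one.indicator hE
  have h2 : Measurable (fun x : ℝ => E.indicator (1 : ℝ → ℂ) (x + n * β)) :=
    h1.comp (by fun_prop)
  have h3 : Measurable (fun x : ℝ => (Real.exp (L n x) : ℂ)) :=
    Complex.measurable_ofReal.comp (Real.measurable_exp.comp (hL n))
  exact h3.mul h2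

theorem indicator_per (hper : ∀ x, x + 1 ∈ E ↔ x ∈ E) (x : ℝ) :
    E.indicator (1 : ℝ → ℂ) (x + 1) = E.indicator 1 x := by
  by_cases h : x ∈ E
  · rw [Set.indicator_of_mem h, Set.indicator_of_mem ((hper x).mpr h)]; rfl
  · rw [Set.indicator_of_notMem h, Set.indicator_of_notMem (fun h' => h ((hper x).mp h'))]

theorem TT_per (hper : ∀ x, x + 1 ∈ E ↔ x ∈ E) (hLper : ∀ n x, L n (x + 1) = L n x)
    (n : ℤ) (x : ℝ) : TT β L E n (x + 1) = TT β L E n x := by
  unfold TT
  rw [hLper, show x + 1 + n * β = (x + n * β) + 1 by ring, indicator_per hper]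

theorem TT_shift (hrec : ∀ (n : ℤ) x, L (n + 1) x = v x + L n (x + β)) (n : ℤ) (x : ℝ) :
    (Real.exp (v x) : ℂ) * TT β L E n (x + β) = TT β L E (n + 1) x := by
  unfold TT
  rw [hrec, Real.exp_add, show x + β + n * β = x + ((n + 1 : ℤ) : ℝ) * β by push_cast; ring]
  push_cast
  ring

theorem TT_bound {C : ℝ}
    (hb : ∀ (n : ℤ) (x : ℝ), x + n * β ∈ E → L n x ≤ C * (1 + Real.log (|(n : ℝ)| + 2) ^ 2))
    (n : ℤ) (x : ℝ) :
    ‖TT β L E n x‖ ≤ Real.exp (C * (1 + Real.log (|(n : ℝ)| + 2) ^ 2)) := by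
  unfold TT
  rw [norm_mul, Complex.norm_real, Real.norm_of_nonneg (Real.exp_pos _).le]
  by_cases h : x + n * β ∈ E
  · rw [Set.indicator_of_mem h]
    simpa using hb n x h
  · rw [Set.indicator_of_notMem h]
    simp
    positivity

theorem TT_zero (h0 : ∀ x, L 0 x = 0) (x : ℝ) : TT β L E 0 x = E.indicator 1 x := by
  unfold TT
  rw [h0]; simp

end Terms

end M7mod

open M7mod in
theorem M7 (h6 : M6_Stmt) : M7_Stmt := by
  obtain ⟨ψ, B, hψc, -, -, hψ1, hB, hcc, hII⟩ := h6
  intro C hC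
  have hsum := summable_maj C B hC
  have hsum1 : Summable (maj C B) := hsum
  -- the radius
  obtain ⟨s, hs⟩ : ∃ s : Finset ℤ, ∑' n : ℤ, (if n ∈ s then 0 else maj C B n) ≤ 1 / 16 := by
    have ht := tendsto_tsum_compl_atTop_zero (maj C B)
    have := (ht.eventually (gt_mem_nhds (show (0 : ℝ) < 1 / 16 by norm_num))).exists
    obtain ⟨s, hs⟩ := this
    refine ⟨s, ?_⟩
    have h2 : ∑' n : ℤ, (if n ∈ s then 0 else maj C B n) = ∑' (n : {x // x ∉ s}), maj C B n := by
      have := tsum_subtype {x : ℤ | x ∉ s} (maj C B)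
      rw [show (∑' (n : {x // x ∉ s}), maj C B n) = ∑' (x : ({x : ℤ | x ∉ s} : Set ℤ)), maj C B x
        from rfl, this]
      apply tsum_congr
      intro n
      by_cases h : n ∈ s <;> simp [Set.indicator, h]
    rw [h2]; exact hs.le
  obtain ⟨r, hr1, hr⟩ : ∃ r : ℕ, 1 ≤ r ∧ ∀ n ∈ s, n.natAbs < r := by
    refine ⟨(s.sup Int.natAbs) + 1, by omega, ?_⟩
    intro n hn
    exact Nat.lt_succ_of_le (Finset.le_sup (f := Int.natAbs) hn)
  set M : ℝ := (∑' n : ℤ, maj C B n) + 1 with hM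
  have hM0 : 0 ≤ ∑' n : ℤ, maj C B n := tsum_nonneg (fun n => maj_nonneg C hB n)
  refine ⟨r, M, hr1, by linarith, ?_⟩
  intro β v L E hE hper hLm hLper hL0 hrec hb
  -- general facts on sums
  have hterm : ∀ (a : ℤ → ℂ), (∀ n, ‖a n‖ ≤ B * Real.exp (-(|(n : ℝ)| ^ (1 / 3 : ℝ)))) →
      ∀ (n : ℤ) (x : ℝ), ‖a n * TT β L E n x‖ ≤ maj C B n := by
    intro a ha n x
    rw [norm_mul]
    unfold maj
    exact mul_le_mul (ha n) (TT_bound hb n x) (norm_nonneg _) (by positivity)
  have hsummable : ∀ (a : ℤ → ℂ), (∀ n, ‖a n‖ ≤ B * Real.exp (-(|(n : ℝ)| ^ (1 / 3 : ℝ)))) →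
      ∀ (x : ℝ), Summable (fun n => a n * TT β L E n x) := by
    intro a ha x
    exact Summable.of_norm_bounded hsum (fun n => hterm a ha n x)
  have hbound : ∀ (a : ℤ → ℂ), (∀ n, ‖a n‖ ≤ B * Real.exp (-(|(n : ℝ)| ^ (1 / 3 : ℝ)))) →
      ∀ (x : ℝ), ‖∑' n, a n * TT β L E n x‖ ≤ M := by
    intro a ha x
    have := tsum_of_norm_bounded hsum.hasSum (fun n => hterm a ha n x)
    linarith
  have hmeas : ∀ (a : ℤ → ℂ), Measurable (fun x => ∑' n, a n * TT β L E n x) := by
    intro a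
    apply Measurable.tsum
    intro n
    exact (measurable_TT hE hLm n).const_mul _
  have hperi : ∀ (a : ℤ → ℂ) (x : ℝ),
      ∑' n, a n * TT β L E n (x + 1) = ∑' n, a n * TT β L E n x := by
    intro a x
    apply tsum_congr
    intro n
    rw [TT_per hper hLper]
  -- the coefficients
  set z : ℕ → ℂ := fun i => ee (i / r) with hz
  have hz1 : ∀ i, ‖z i‖ = 1 := fun i => norm_ee _
  have hz0 : ∀ i, z i ≠ 0 := fun i => ee_ne _
  have hzw : ∀ (i : ℕ) (w : ℂ), w ∉ closedBall (z i) (1 / 10) →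
      w / z i ∉ closedBall (1 : ℂ) (1 / 10) := by
    intro i w hw
    simp only [mem_closedBall, dist_eq_norm, not_le] at hw ⊢
    have : w / z i - 1 = (w - z i) / z i := by field_simp [hz0 i]
    rw [this, norm_div, hz1, div_one]; exact hw
  have hzw2 : ∀ (i : ℕ) (w : ℂ), w ∉ closedBall (z i) (1 / 10) →
      w / z i ∉ ball (1 : ℂ) (1 / 10) := by
    intro i w hw h
    exact hzw i w hw (ball_subset_closedBall h)
  set ca : ℕ → ℤ → ℂ := fun i n => z i ^ (-n) * cc ψ n with hca
  set cb : ℕ → ℂ → ℤ → ℂ := fun i w n => z i ^ (-n - 1) * II ψ (w / z i) n with hcb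
  have hcab : ∀ i n, ‖ca i n‖ ≤ B * Real.exp (-(|(n : ℝ)| ^ (1 / 3 : ℝ))) := by
    intro i n
    simp only [hca, norm_mul, norm_zpow, hz1, one_zpow, one_mul]
    exact hcc n
  have hcbb : ∀ i w, w ∉ closedBall (z i) (1 / 10) →
      ∀ n, ‖cb i w n‖ ≤ B * Real.exp (-(|(n : ℝ)| ^ (1 / 3 : ℝ))) := by
    intro i w hw n
    simp only [hcb, norm_mul, norm_zpow, hz1, one_zpow, one_mul]
    exact hII _ (hzw2 i w hw) n
  classical
  refine ⟨fun i x => ∑' n, ca i n * TT β L E n x,
    fun i w x => if w ∈ closedBall (z i) (1 / 10) then 0 else ∑' n, cb i w n * TT β L E n x, ?_, ?_⟩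
  · intro i hi
    refine ⟨hmeas _, hperi _, hbound _ (hcab i), ?_, ?_, ?_, ?_, ?_⟩
    · intro w
      by_cases hw : w ∈ closedBall (z i) (1 / 10)
      · simp only [hw, if_true]; exact measurable_const
      · simp only [hw, if_false]; exact hmeas _
    · intro w x
      by_cases hw : w ∈ closedBall (z i) (1 / 10)
      · simp only [hw, if_true]
      · simp only [hw, if_false]; exact hperi _ x
    · intro w hw x
      simp only [show ¬ (w ∈ closedBall (z i) (1 / 10)) from hw, if_false]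
      exact hbound _ (hcbb i w hw) x
    · intro x
      have hD : DifferentiableOn ℂ (fun w => ∑' n, cb i w n * TT β L E n x)
          (closedBall (z i) (1 / 10))ᶜ := by
        apply Complex.differentiableOn_tsum_of_summable_norm hsum
        · intro n
          apply DifferentiableOn.mul_const
          simp only [hcb]
          apply DifferentiableOn.const_mul
          have h1 := II_differentiable ψ hψc n
          have h2 : DifferentiableOn ℂ (fun w : ℂ => w / z i) (closedBall (z i) (1 / 10))ᶜ := by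
            fun_prop
          exact h1.comp h2 (fun w hw => hzw i w hw)
        · exact isClosed_closedBall.isOpen_compl
        · intro n w hw
          exact hterm _ (hcbb i w hw) n x
      refine hD.congr ?_
      intro w hw
      simp only [show ¬ (w ∈ closedBall (z i) (1 / 10)) from hw, if_false]
    · intro w hw x
      simp only [show ¬ (w ∈ closedBall (ee ((i : ℝ) / r)) (1 / 10)) from hw, if_false, hz]
      have hs1 := hsummable _ (hcbb i w hw) x
      have hs2 := hsummable _ (hcbb i w hw) (x + β)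
      rw [← tsum_mul_left, ← tsum_mul_left]
      have e1 : ∑' n, (Real.exp (v x) : ℂ) * (cb i w n * TT β L E n (x + β)) =
          ∑' n, cb i w (n - 1) * TT β L E n x := by
        rw [← (Equiv.addRight (1 : ℤ)).tsum_eq (fun n => cb i w (n - 1) * TT β L E n x)]
        apply tsum_congr
        intro n
        simp only [Equiv.coe_addRight, add_sub_cancel_right]
        rw [← TT_shift hrec]
        ring
      have hs3 : Summable (fun n => cb i w (n - 1) * TT β L E n x) := by
        rw [← (Equiv.addRight (1 : ℤ)).summable_iff]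
        have h4 := hs2.mul_left (Real.exp (v x) : ℂ)
        refine h4.congr ?_
        intro n
        simp only [Function.comp, Equiv.coe_addRight, add_sub_cancel_right]
        rw [← TT_shift hrec]
        ring
      rw [e1, ← Summable.tsum_sub hs3 (hs1.mul_left w)]
      apply tsum_congr
      intro n
      have hrecn := II_rec ψ hψc (w / z i) (hzw2 i w hw) n
      simp only [hca, hcb]
      rw [← hrecn]
      have hzz : z i ^ (-(n - 1) - 1) = z i ^ (-n) := by congr 1; ring
      have hzz2 : z i ^ (-n - 1) = z i ^ (-n) / z i := by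
        rw [zpow_sub₀ (hz0 i), zpow_one]
      rw [hzz, hzz2]
      field_simp [hz0 i]
  · intro x
    have hr0 : (r : ℂ) ≠ 0 := by
      have : (r : ℕ) ≠ 0 := by omega
      exact_mod_cast this
    have e1 : (1 / (r : ℂ)) * ∑ i ∈ Finset.range r, ∑' n, ca i n * TT β L E n x =
        ∑' n : ℤ, (if (r : ℤ) ∣ n then cc ψ n * TT β L E n x else 0) := by
      rw [← Summable.tsum_finsetSum (fun i _ => hsummable _ (hcab i) x), ← tsum_mul_left]
      apply tsum_congr
      intro n
      have : ∑ i ∈ Finset.range r, ca i n * TT β L E n x =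
          (∑ i ∈ Finset.range r, z i ^ (-n)) * (cc ψ n * TT β L E n x) := by
        rw [Finset.sum_mul]
        apply Finset.sum_congr rfl
        intro i _
        simp only [hca]; ring
      rw [this, sum_roots r hr1 n]
      split_ifs
      · field_simp
      · simp
    have hc0 : cc ψ 0 = 1 := by
      unfold cc
      have : ∀ θ : ℝ, (ψ θ : ℂ) * ee (-(((0 : ℤ) : ℝ) * θ)) = ((ψ θ : ℝ) : ℂ) := by
        intro θ; simp [ee_zero]
      simp only [this]
      rw [intervalIntegral.integral_ofReal, hψ1]; simp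
    have hS : Summable (fun n : ℤ => (if (r : ℤ) ∣ n then cc ψ n * TT β L E n x else 0)) := by
      refine Summable.of_norm_bounded hsum ?_
      intro n
      split_ifs
      · exact hterm (cc ψ) (fun n => hcc n) n x
      · rw [norm_zero]; exact maj_nonneg C hB n
    have hS0 : HasSum (fun n : ℤ => if n = 0 then E.indicator (1 : ℝ → ℂ) x else 0)
        (E.indicator 1 x) := hasSum_ite_eq 0 _
    have e2 : (∑' n : ℤ, (if (r : ℤ) ∣ n then cc ψ n * TT β L E n x else 0)) -
        E.indicator 1 x = ∑' n : ℤ, ((if (r : ℤ) ∣ n then cc ψ n * TT β L E n x else 0) -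
          (if n = 0 then E.indicator (1 : ℝ → ℂ) x else 0)) := by
      rw [Summable.tsum_sub hS hS0.summable, hS0.tsum_eq]
    rw [e1, e2]
    have hsum' : Summable (fun n : ℤ => (if n ∈ s then 0 else maj C B n)) := by
      refine Summable.of_nonneg_of_le ?_ ?_ hsum
      · intro n; split_ifs
        · exact le_rfl
        · exact maj_nonneg C hB n
      · intro n; split_ifs
        · exact maj_nonneg C hB n
        · exact le_rfl
    refine (tsum_of_norm_bounded hsum'.hasSum ?_).trans hs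
    intro n
    by_cases hn0 : n = 0
    · subst hn0
      simp only [dvd_zero, if_true, hc0, one_mul, TT_zero hL0, sub_self, norm_zero]
      split_ifs
      · exact le_rfl
      · exact maj_nonneg C hB 0
    · simp only [hn0, if_false, sub_zero]
      by_cases hd : (r : ℤ) ∣ n
      · have hns : n ∉ s := by
          intro hns
          have h1 := hr n hns
          have h2 : r ∣ n.natAbs := by
            have := Int.natAbs_dvd_natAbs.mpr hd
            simpa using this
          have h3 : 0 < n.natAbs := Int.natAbs_pos.mpr hn0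
          exact absurd (Nat.le_of_dvd h3 h2) (by omega)
        simp only [hd, if_true, hns, if_false]
        exact hterm (cc ψ) (fun n => hcc n) n x
      · simp only [hd, if_false, norm_zero]
        split_ifs
        · exact le_rfl
        · exact maj_nonneg C hB n

end Pool.Agent.Bishop
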